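import Pool.Agent.MP_08f939_co.Mg.Joined

namespace Pool.Agent.Results.MP_08f939_co.Criterion

/-- If `2 ^ ((2 n + 1) / 4)` is within `c / 2` of an integer `k ≡ 2 mod 4` (`c = 2` or `3`), every
Sidon set in `(𝔽₂ⁿ)²` has fewer than `2 ^ (n + 1 / 2) - (6 - c)` elements. -/
theorem result (n : ℕ) (hn : 6 ≤ n) (c k : ℤ) (hc : 2 ≤ c) (hc' : c ≤ 3) (hk0 : 0 ≤ k)
    (hk : k % 4 = 2) (h1 : (2 * k - c) ^ 4 ≤ 2 ^ (2 * n + 5))
    (h2 : 2 ^ (2 * n + 5) ≤ (2 * k + c) ^ 4)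
    (S : Finset ((Fin n → ZMod 2) × (Fin n → ZMod 2)))
    (hS : ∀ x ∈ S, ∀ y ∈ S, ∀ z ∈ S, ∀ t ∈ S, x ≠ y → x ≠ z → x ≠ t → y ≠ z → y ≠ t → z ≠ t →
      x + y + z + t ≠ 0) :
    ((S.card : ℤ) + (6 - c)) ^ 2 < 2 ^ (2 * n + 1) := by
  have H := Pool.Agent.MP_08f939_co.Joined.joined.1 n S hS
  have e : (2 : ℤ) ^ (2 * n + 5) = 2 ^ (2 * n + 1) * 16 := by ring
  obtain rfl | rfl : c = 2 ∨ c = 3 := by omega
  · have := H.2.1 k hn hk0 hk (by rw [e] at h1; nlinarith) (by rw [e] at h2; nlinarith)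
    have h : (((S.card + 4) ^ 2 : ℕ) : ℤ) < ((2 ^ (2 * n + 1) : ℕ) : ℤ) := by exact_mod_cast this
    push_cast at h
    norm_num
    exact h
  · have := H.1 k hn hk0 hk h1 h2
    have h : (((S.card + 3) ^ 2 : ℕ) : ℤ) < ((2 ^ (2 * n + 1) : ℕ) : ℤ) := by exact_mod_cast this
    push_cast at h
    norm_num
    exact h

end Pool.Agent.Results.MP_08f939_co.Criterion
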