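import Pool.Agent.MP_08f939_co.Mg.Joined

namespace Pool.Agent.Results.MP_08f939_co.Table

/-- Explicit upper bounds for Sidon sets in `(𝔽₂ⁿ)²`, `6 ≤ n ≤ 20`. -/
theorem result :
    ∀ p ∈ [(6, 85), (7, 175), (8, 357), (9, 719), (10, 1443), (11, 2890), (12, 5790),
        (13, 11582), (14, 23168), (15, 46336), (16, 92679), (17, 185358), (18, 370723),
        (19, 741450), (20, 1482905)],
      ∀ S : Finset ((Fin p.1 → ZMod 2) × (Fin p.1 → ZMod 2)),
        (∀ x ∈ S, ∀ y ∈ S, ∀ z ∈ S, ∀ t ∈ S, x ≠ y → x ≠ z → x ≠ t → y ≠ z → y ≠ t → z ≠ t →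
          x + y + z + t ≠ 0) → S.card ≤ p.2 :=
  fun p hp S hS => (Pool.Agent.MP_08f939_co.Joined.joined.1 p.1 S hS).2.2 p hp rfl

end Pool.Agent.Results.MP_08f939_co.Table
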