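import Pool.Agent.MP_08f939_co.Mg.H50_Final

namespace Pool.Agent.Results.MP_08f939_co.UnboundedGain

/-- For `n ≥ 10 ^ 16`, every Sidon set in `(𝔽₂ⁿ)²` has fewer than
`2 ^ (n + 1 / 2) - ⌊√n / 10 ^ 8⌋` elements. -/
theorem result (n : ℕ) (hn : 10 ^ 16 ≤ n) (S : Finset ((Fin n → ZMod 2) × (Fin n → ZMod 2)))
    (hS : ∀ x ∈ S, ∀ y ∈ S, ∀ z ∈ S, ∀ t ∈ S, x ≠ y → x ≠ z → x ≠ t → y ≠ z → y ≠ t → z ≠ t →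
      x + y + z + t ≠ 0) :
    (S.card : ℝ) < (2 : ℝ) ^ ((n : ℝ) + 1 / 2) - ⌊√(n : ℝ) / 10 ^ 8⌋₊ := by
  have hn' : (10 : ℝ) ^ 16 ≤ n := by exact_mod_cast hn
  have h0 : (0 : ℝ) ≤ √(n : ℝ) / 10 ^ 8 := by positivity
  have hT : 1 ≤ ⌊√(n : ℝ) / 10 ^ 8⌋₊ := by
    rw [Nat.one_le_floor_iff, one_le_div (by norm_num)]
    exact Real.le_sqrt_of_sq_le (by linarith)
  have hT2 : 10 ^ 16 * ⌊√(n : ℝ) / 10 ^ 8⌋₊ ^ 2 ≤ n := by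
    have h1 := Nat.floor_le h0
    have h2 : (⌊√(n : ℝ) / 10 ^ 8⌋₊ : ℝ) ^ 2 ≤ (√(n : ℝ) / 10 ^ 8) ^ 2 := by gcongr
    rw [div_pow, Real.sq_sqrt (by positivity), le_div_iff₀ (by norm_num)] at h2
    have h3 : (10 : ℝ) ^ 16 * (⌊√(n : ℝ) / 10 ^ 8⌋₊ : ℝ) ^ 2 ≤ n := by linarith
    exact_mod_cast h3
  have h := Pool.Agent.MP_08f939_co.H50.main' hT hT2 S hS
  have h' : ((S.card : ℝ) + ⌊√(n : ℝ) / 10 ^ 8⌋₊) ^ 2 < 2 ^ (2 * n + 1) := by exact_mod_cast h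
  have e : ((2 : ℝ) ^ ((n : ℝ) + 1 / 2)) ^ 2 = 2 ^ (2 * n + 1) := by
    rw [← Real.rpow_natCast, ← Real.rpow_mul (by norm_num), ← Real.rpow_natCast]
    congr 1
    push_cast
    ring
  rw [← e] at h'
  have := lt_of_pow_lt_pow_left₀ 2 (by positivity) h'
  linarith

end Pool.Agent.Results.MP_08f939_co.UnboundedGain
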